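import Pool.Agent.LE.StmtsQY

/-!
# Row LDS of squad LQY: the local density of states at all energies and all scales
-/

set_option autoImplicit false

open MeasureTheory ProbabilityTheory Function Filter

open scoped ENNReal BigOperators Topology NNReal ComplexOrder Matrix

noncomputable section

namespace Pool.Agent.LE.QY.H69

open Pool.Agent.Anderson hiding box mem_box card_box
open Pool.Agent.Loc Pool.Agent.Mob Pool.Agent.Helper54.Bal
  Pool.Agent.Helper96.EXP Pool.Agent.BED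
open Pool.Agent.LE.MN Pool.Agent.LE.CL Pool.Agent.LE.IR Pool.Agent.LE.QD Pool.Agent.LE.QF

/-- translation invariance of the free resolvent -/
theorem free_shift {d : ℕ} {z : ℂ} (hz : z.im ≠ 0) (x : Site d) :
    G (0 : Site d → ℝ) z (del x) x = G (0 : Site d → ℝ) z (del 0) 0 := by
  have h1 : shift (-x) (G (0 : Site d → ℝ) z (del 0)) = G (0 : Site d → ℝ) z (del x) := by
    apply G_unique hz
    intro y
    have h2 := G_eq (V := (0 : Site d → ℝ)) hz (del 0) (y + -x)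
    have h3 : lap (shift (-x) (G (0 : Site d → ℝ) z (del 0))) y
        = lap (G (0 : Site d → ℝ) z (del 0)) (y + -x) := by
      unfold lap
      refine Finset.sum_congr rfl fun i _ => ?_
      rw [shift_apply, shift_apply]
      have e1 : y + Pi.single i 1 + -x = y + -x + Pi.single i 1 := by abel
      have e2 : y - Pi.single i 1 + -x = y + -x - Pi.single i 1 := by abel
      rw [e1, e2]
    have h4 : (del (0 : Site d) : L2 d) (y + -x) = (del x : L2 d) y := by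
      unfold del
      rw [lp.single_apply, lp.single_apply]
      by_cases h : y = x
      · subst h
        simp
      · have h' : y + -x ≠ 0 := fun h0 => h (by
          have := congrArg (fun w => w + x) h0
          simpa using this)
        rw [Pi.single_eq_of_ne h, Pi.single_eq_of_ne h']
    rw [h3, shift_apply, ← h4]
    simpa using h2
  rw [← h1, shift_apply]
  simp

/-- one energy, one scale, one site -/
theorem one {d : ℕ} {a θ c : ℝ} (hθ : 0 < θ) (hc : 0 < c) (hc1 : c ≤ 1 / 4)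
    (h : ∀ σ E T : ℝ, σ ≠ 0 → |σ| ≤ c → |E| ≤ 2 * d - a → |σ| ^ (-3 : ℝ) ≤ T →
      T ≤ Real.exp (|σ| ^ (-θ)) → ∃ m : ℂ, c ≤ m.im ∧ ‖m‖ ≤ 1 / c ∧
        ‖m - G (0 : Site d → ℝ) (⟨E, 1 / T⟩ + (σ : ℂ) ^ 2 * m) (del 0) 0‖ ≤ |σ| ^ θ ∧
        ∀ b : Site d, PP d (gl σ) {V | ¬ ∀ x y : Site d, (sd b x : ℝ) ≤ T → (sd b y : ℝ) ≤ T →
          ‖G V ⟨E, 1 / T⟩ (del x) y -
            G (0 : Site d → ℝ) (⟨E, 1 / T⟩ + (σ : ℂ) ^ 2 * m) (del x) y‖ ≤ |σ| ^ θ} ≤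
          ENNReal.ofReal (Real.exp (-(|σ| ^ (-θ)))))
    {σ E T : ℝ} (hσ : σ ≠ 0) (hσc : |σ| ≤ c) (hE : |E| ≤ 2 * d - a) (hT : |σ| ^ (-3 : ℝ) ≤ T)
    (hT' : T ≤ Real.exp (|σ| ^ (-θ))) (hs : |σ| ^ θ ≤ c / 4) (x : Site d) :
    PP d (gl σ) {V | ¬ (c / 2 ≤ (G V ⟨E, 1 / T⟩ (del x) x).im ∧
      (G V ⟨E, 1 / T⟩ (del x) x).im ≤ 2 / c)} ≤ ENNReal.ofReal (Real.exp (-(|σ| ^ (-θ)))) := by
  obtain ⟨m, hm1, hm2, hm3, hm4⟩ := h σ E T hσ hσc hE hT hT'
  have hs0 : 0 < |σ| := abs_pos.2 hσ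
  have hT0 : 0 < T := lt_of_lt_of_le (Real.rpow_pos_of_pos hs0 _) hT
  refine le_trans (measure_mono ?_) (hm4 x)
  intro V hV hall
  apply hV
  have h1 := hall x x (by rw [sd_self]; simpa using hT0.le) (by rw [sd_self]; simpa using hT0.le)
  have hz : ((⟨E, 1 / T⟩ : ℂ) + (σ : ℂ) ^ 2 * m).im ≠ 0 := by
    have e1 : ((⟨E, 1 / T⟩ : ℂ) + (σ : ℂ) ^ 2 * m).im = 1 / T + σ ^ 2 * m.im := by
      have e2 : ((σ : ℂ) ^ 2) = ((σ ^ 2 : ℝ) : ℂ) := by push_cast; ring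
      rw [e2, Complex.add_im, Complex.im_ofReal_mul]
    rw [e1]
    have : 0 < 1 / T := by positivity
    have : 0 ≤ σ ^ 2 * m.im := mul_nonneg (sq_nonneg _) (hc.le.trans hm1)
    positivity
  rw [free_shift hz x] at h1
  have h2 : ‖m - G V ⟨E, 1 / T⟩ (del x) x‖ ≤ c / 2 := by
    have := norm_sub_le_norm_sub_add_norm_sub m
      (G (0 : Site d → ℝ) (⟨E, 1 / T⟩ + (σ : ℂ) ^ 2 * m) (del 0) 0) (G V ⟨E, 1 / T⟩ (del x) x)
    rw [norm_sub_rev (G (0 : Site d → ℝ) (⟨E, 1 / T⟩ + (σ : ℂ) ^ 2 * m) (del 0) 0)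
      (G V ⟨E, 1 / T⟩ (del x) x)] at this
    linarith
  have h3 := Complex.abs_im_le_norm (m - G V ⟨E, 1 / T⟩ (del x) x)
  rw [Complex.sub_im] at h3
  have h4 := abs_le.1 (h3.trans h2)
  have h5 := (Complex.abs_im_le_norm m).trans hm2
  have h6 := (abs_le.1 h5).2
  have h7 : c / 2 ≤ 1 / c := by
    rw [div_le_div_iff₀ (by norm_num) hc]
    nlinarith
  constructor
  · linarith
  · have : 2 / c = 1 / c + 1 / c := by ring
    rw [this]
    linarith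

theorem grid2 {E h : ℝ} (hh : 0 < h) : ∃ j : ℤ, |(j : ℝ) * h| ≤ |E| ∧ |(j : ℝ) * h - E| ≤ h := by
  rcases le_total 0 E with h0 | h0
  · refine ⟨⌊E / h⌋, ?_, ?_⟩
    · have h1 : (0 : ℝ) ≤ (⌊E / h⌋ : ℤ) := by
        exact_mod_cast Int.floor_nonneg.2 (div_nonneg h0 hh.le)
      rw [abs_of_nonneg (mul_nonneg h1 hh.le), abs_of_nonneg h0]
      exact (le_div_iff₀ hh).1 (Int.floor_le _)
    · have h1 := (le_div_iff₀ hh).1 (Int.floor_le (E / h))
      have h2 := (div_lt_iff₀ hh).1 (Int.lt_floor_add_one (E / h))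
      rw [abs_le]
      constructor <;> nlinarith
  · refine ⟨-⌊-E / h⌋, ?_, ?_⟩
    · have h1 : (0 : ℝ) ≤ (⌊-E / h⌋ : ℤ) := by
        exact_mod_cast Int.floor_nonneg.2 (div_nonneg (by linarith) hh.le)
      push_cast
      rw [neg_mul, abs_neg, abs_of_nonneg (mul_nonneg h1 hh.le), abs_of_nonpos h0]
      exact (le_div_iff₀ hh).1 (Int.floor_le _)
    · have h1 := (le_div_iff₀ hh).1 (Int.floor_le (-E / h))
      have h2 := (div_lt_iff₀ hh).1 (Int.lt_floor_add_one (-E / h))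
      push_cast
      rw [abs_le]
      constructor <;> nlinarith

/-- the deterministic part -/
theorem detp {f : ℝ → ℝ → ℝ} {b c c₀ D T r : ℝ} {n J : ℕ} (hc : 0 < c) (hc₀ : 0 < c₀)
    (hcc : c ≤ c₀ / 100) (hT : 1 ≤ T) (hr : r ≤ 1) (hb : b ≤ D) (hn : n = ⌊T⌋₊)
    (hJ : J = ⌊D * T⌋₊)
    (H : ∀ E E' η η' : ℝ, 0 < η → η / 2 ≤ η' → η' ≤ 2 * η → |E - E'| ≤ η → f E' η' ≤ 50 * f E η)
    (good : ∀ (k : ℕ) (j : ℤ), k ≤ n → j ∈ Finset.Icc (-(J : ℤ)) J →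
      |(j : ℝ) * (2 ^ k / T)| ≤ b → 2 ^ k / T ≤ r →
      c₀ / 2 ≤ f (j * (2 ^ k / T)) (2 ^ k / T) ∧ f (j * (2 ^ k / T)) (2 ^ k / T) ≤ 2 / c₀)
    {E η : ℝ} (hE : |E| ≤ b) (hη1 : 1 / T ≤ η) (hη2 : η ≤ r) : c ≤ f E η ∧ f E η ≤ 1 / c := by
  have hT0 : 0 < T := by linarith
  have hηT : 1 ≤ η * T := by
    rw [div_le_iff₀ hT0] at hη1
    exact hη1
  have hη0 : 0 < η := lt_of_lt_of_le (by positivity) hη1
  have hfl : ⌊η * T⌋₊ ≠ 0 := by
    have : 1 ≤ ⌊η * T⌋₊ := Nat.le_floor (by simpa using hηT)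
    omega
  obtain ⟨k, hk⟩ : ∃ k, k = Nat.log 2 ⌊η * T⌋₊ := ⟨_, rfl⟩
  have hk1 : (2 : ℝ) ^ k ≤ η * T := by
    have h1 : 2 ^ k ≤ ⌊η * T⌋₊ := hk ▸ Nat.pow_log_le_self 2 hfl
    have h2 : ((2 ^ k : ℕ) : ℝ) ≤ (⌊η * T⌋₊ : ℝ) := by exact_mod_cast h1
    push_cast at h2
    exact h2.trans (Nat.floor_le (by positivity))
  have hk2 : η * T < 2 * 2 ^ k := by
    have h1 : ⌊η * T⌋₊ < 2 ^ (k + 1) := hk ▸ Nat.lt_pow_succ_log_self (by norm_num) _
    have h2 : η * T < (⌊η * T⌋₊ : ℝ) + 1 := Nat.lt_floor_add_one _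
    have h3 : ((⌊η * T⌋₊ + 1 : ℕ) : ℝ) ≤ ((2 ^ (k + 1) : ℕ) : ℝ) := by exact_mod_cast h1
    push_cast at h3
    rw [pow_succ] at h3
    linarith
  obtain ⟨h, hh⟩ : ∃ h : ℝ, h = 2 ^ k / T := ⟨_, rfl⟩
  have hh1 : h ≤ η := by
    rw [hh, div_le_iff₀ hT0]
    exact hk1
  have hh2 : η < 2 * h := by
    rw [hh, ← mul_div_assoc, lt_div_iff₀ hT0]
    exact hk2
  have hh0 : 0 < h := by
    rw [hh]
    positivity
  obtain ⟨j, hj1, hj2⟩ := grid2 (E := E) hh0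
  have hkn : k ≤ n := by
    rw [hn]
    apply Nat.le_floor
    have h1 : (k : ℝ) ≤ 2 ^ k := by exact_mod_cast (Nat.lt_two_pow_self (n := k)).le
    have h2 : η * T ≤ T := by
      have : η ≤ 1 := hη2.trans hr
      nlinarith
    linarith
  have hjJ : j ∈ Finset.Icc (-(J : ℤ)) J := by
    have h1 : |(j : ℝ)| ≤ D * T := by
      have h2 : |(j : ℝ) * h| = |(j : ℝ)| * h := by rw [abs_mul, abs_of_pos hh0]
      have h3 := hj1.trans hE
      rw [h2] at h3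
      have h4 : 1 / T ≤ h := by
        rw [hh]
        exact div_le_div_of_nonneg_right (one_le_pow₀ (by norm_num)) hT0.le
      have h5 : |(j : ℝ)| * (1 / T) ≤ D := by
        have := mul_le_mul_of_nonneg_left h4 (abs_nonneg (j : ℝ))
        linarith
      rw [mul_one_div, div_le_iff₀ hT0] at h5
      exact h5
    have h6 : j.natAbs ≤ J := by
      rw [hJ]
      apply Nat.le_floor
      rw [Nat.cast_natAbs]
      push_cast
      exact h1
    rw [Finset.mem_Icc]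
    omega
  obtain ⟨hQ1, hQ2⟩ := good k j hkn hjJ (by rw [← hh]; exact hj1.trans hE)
    (by rw [← hh]; exact hh1.trans hη2)
  rw [← hh] at hQ1 hQ2
  have r1 := H ((j : ℝ) * h) E h η hh0 (by linarith) (by linarith) hj2
  have r2 := H E ((j : ℝ) * h) η h hη0 (by linarith) (by linarith) (by
    rw [abs_sub_comm]
    linarith)
  constructor
  · linarith
  · have h1 : 100 / c₀ ≤ 1 / c := by
      rw [div_le_div_iff₀ hc₀ hc]
      linarith
    have h2 : 100 / c₀ = 50 * (2 / c₀) := by ring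
    linarith

theorem numb {d : ℕ} (hd : 3 ≤ d) {T X B : ℝ} (hT : 1 ≤ T) (hTX : T ≤ Real.exp X)
    (hB : B = d + 3 + 10 * d * 3 ^ d) (hX : B ≤ X) :
    (3 * T) ^ d * (2 * T * (5 * d * T)) * Real.exp (-(X ^ 2)) ≤ Real.exp (-X) := by
  have hd0 : (3 : ℝ) ≤ d := by exact_mod_cast hd
  have h3 : (1 : ℝ) ≤ 3 ^ d := one_le_pow₀ (by norm_num)
  have hK : (0 : ℝ) < 10 * d * 3 ^ d := by positivity
  have hX1 : 1 ≤ X := by nlinarith
  have e1 : (3 * T) ^ d * (2 * T * (5 * d * T)) = 10 * d * 3 ^ d * T ^ (d + 2) := by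
    rw [mul_pow]; ring
  have e2 : T ^ (d + 2) ≤ Real.exp ((d + 2) * X) := by
    have : Real.exp ((d + 2) * X) = Real.exp X ^ (d + 2) := by
      rw [← Real.exp_nat_mul]
      push_cast
      ring_nf
    rw [this]
    exact pow_le_pow_left₀ (by linarith) hTX _
  have e3 : 10 * (d : ℝ) * 3 ^ d ≤ Real.exp (10 * d * 3 ^ d * X) := by
    have h4 := Real.add_one_le_exp (10 * (d : ℝ) * 3 ^ d * X)
    nlinarith
  rw [e1]
  calc 10 * (d : ℝ) * 3 ^ d * T ^ (d + 2) * Real.exp (-(X ^ 2))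
      ≤ Real.exp (10 * d * 3 ^ d * X) * Real.exp ((d + 2) * X) * Real.exp (-(X ^ 2)) := by
        have h5 : 0 ≤ T ^ (d + 2) := by positivity
        have h6 := mul_le_mul e3 e2 h5 (Real.exp_pos _).le
        exact mul_le_mul_of_nonneg_right h6 (Real.exp_pos _).le
    _ = Real.exp (10 * d * 3 ^ d * X + (d + 2) * X + -(X ^ 2)) := by
        rw [Real.exp_add, Real.exp_add]
    _ ≤ Real.exp (-X) := by
        apply Real.exp_le_exp.2
        have h7 : B * X ≤ X ^ 2 := by nlinarith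
        rw [hB] at h7
        nlinarith

theorem lds (loc : LocStmt) (har : HarStmt) : LdsStmt := by
  intro d a hd ha
  obtain ⟨θ₀, c₀, hθ₀, hc₀, hc₀1, hloc⟩ := loc d a hd ha
  obtain ⟨θ, hθe⟩ : ∃ θ, θ = θ₀ / 2 := ⟨_, rfl⟩
  have hθ : 0 < θ := by rw [hθe]; positivity
  have hd0 : (3 : ℝ) ≤ d := by exact_mod_cast hd
  obtain ⟨B, hB⟩ : ∃ B : ℝ, B = d + 3 + 10 * d * 3 ^ d := ⟨_, rfl⟩
  have hB0 : 0 < B := by rw [hB]; positivity
  obtain ⟨c, hc⟩ : ∃ c : ℝ, c = min (c₀ / 100) (min ((1 / B) ^ (1 / θ)) ((c₀ / 4) ^ (1 / θ₀))) :=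
    ⟨_, rfl⟩
  have hc0 : 0 < c := by
    rw [hc]
    refine lt_min (by positivity) (lt_min ?_ ?_)
    · exact Real.rpow_pos_of_pos (by positivity) _
    · exact Real.rpow_pos_of_pos (by positivity) _
  have hcc : c ≤ c₀ / 100 := hc ▸ min_le_left _ _
  have hc2 : c ≤ (1 / B) ^ (1 / θ) := hc ▸ (min_le_right _ _).trans (min_le_left _ _)
  have hc3 : c ≤ (c₀ / 4) ^ (1 / θ₀) := hc ▸ (min_le_right _ _).trans (min_le_right _ _)
  refine ⟨θ, c, hθ, hc0, by linarith, ?_⟩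
  intro σ T hσ hσc hT hT'
  obtain ⟨s, hs⟩ : ∃ s, s = |σ| := ⟨_, rfl⟩
  have hs0 : 0 < s := hs ▸ abs_pos.2 hσ
  have hsc : s ≤ c := hs ▸ hσc
  have hs1 : s ≤ 1 / 4 := by linarith
  have hsθ : s ^ θ ≤ 1 / B := by
    calc s ^ θ ≤ ((1 / B) ^ (1 / θ)) ^ θ := Real.rpow_le_rpow hs0.le (hsc.trans hc2) hθ.le
      _ = 1 / B := by
        rw [← Real.rpow_mul (by positivity), one_div_mul_cancel hθ.ne', Real.rpow_one]
  have hsθ₀ : s ^ θ₀ ≤ c₀ / 4 := by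
    calc s ^ θ₀ ≤ ((c₀ / 4) ^ (1 / θ₀)) ^ θ₀ := Real.rpow_le_rpow hs0.le (hsc.trans hc3) hθ₀.le
      _ = c₀ / 4 := by
        rw [← Real.rpow_mul (by positivity), one_div_mul_cancel hθ₀.ne', Real.rpow_one]
  obtain ⟨X, hX⟩ : ∃ X, X = s ^ (-θ) := ⟨_, rfl⟩
  have hXB : B ≤ X := by
    rw [hX, Real.rpow_neg hs0.le, le_inv_comm₀ hB0 (Real.rpow_pos_of_pos hs0 _)]
    rwa [one_div] at hsθ
  have hX2 : s ^ (-θ₀) = X ^ 2 := by
    rw [hX, ← Real.rpow_natCast, ← Real.rpow_mul hs0.le, hθe]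
    congr 1
    push_cast
    ring
  have hB1 : 1 ≤ B := by
    have h3 : (0 : ℝ) ≤ 10 * d * 3 ^ d := by positivity
    rw [hB]
    linarith
  have hX1 : 1 ≤ X := hB1.trans hXB
  rw [← hs] at hT hT' ⊢
  rw [← hX] at hT' ⊢
  have hT3 : (s ^ 3)⁻¹ ≤ T := by
    have e1 : s ^ (-3 : ℝ) = (s ^ 3)⁻¹ := by
      rw [Real.rpow_neg hs0.le]
      congr 1
      exact_mod_cast Real.rpow_natCast s 3
    rwa [e1] at hT
  have hs3 : 0 < s ^ 3 := by positivity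
  have hT0 : 0 < T := lt_of_lt_of_le (inv_pos.2 hs3) hT3
  have hT1 : 1 ≤ T := by
    have h1 : (1 : ℝ) ≤ (s ^ 3)⁻¹ := by
      rw [one_le_inv₀ hs3]
      exact pow_le_one₀ hs0.le (by linarith)
    exact h1.trans hT3
  -- the events
  let h : ℕ → ℝ := fun k => 2 ^ k / T
  let Q : Site d → ℕ → ℤ → Cfg d → Prop := fun x k j V =>
    c₀ / 2 ≤ (G V ⟨(j : ℝ) * h k, h k⟩ (del x) x).im ∧
      (G V ⟨(j : ℝ) * h k, h k⟩ (del x) x).im ≤ 2 / c₀
  let p : ℕ → ℤ → Prop := fun k j => |(j : ℝ) * h k| ≤ 2 * d - a ∧ h k ≤ s ^ 3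
  have hP : ∀ (x : Site d) (k : ℕ) (j : ℤ),
      PP d (gl σ) {V | p k j ∧ ¬ Q x k j V} ≤ ENNReal.ofReal (Real.exp (-(X ^ 2))) := by
    intro x k j
    by_cases hp : p k j
    · have e1 : h k = 1 / (T / 2 ^ k) := by
        show 2 ^ k / T = _
        rw [one_div_div]
      have hk0 : (0 : ℝ) < 2 ^ k := by positivity
      have h1 := one (d := d) (a := a) hθ₀ hc₀ hc₀1 hloc (σ := σ) (E := (j : ℝ) * h k)
        (T := T / 2 ^ k) hσ (by rw [← hs]; linarith) hp.1 (by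
          rw [← hs]
          have e2 : s ^ (-3 : ℝ) = (s ^ 3)⁻¹ := by
            rw [Real.rpow_neg hs0.le]
            congr 1
            exact_mod_cast Real.rpow_natCast s 3
          rw [e2, inv_le_comm₀ hs3 (by positivity)]
          have h2 := hp.2
          rw [e1, one_div] at h2
          exact h2) (by
          rw [← hs, hX2]
          calc T / 2 ^ k ≤ T := div_le_self hT0.le (one_le_pow₀ (by norm_num))
            _ ≤ Real.exp X := hT'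
            _ ≤ Real.exp (X ^ 2) := Real.exp_le_exp.2 (by nlinarith)) (by rw [← hs]; exact hsθ₀) x
      rw [← hs, hX2, ← e1] at h1
      refine le_trans (measure_mono ?_) h1
      intro V hV
      exact hV.2
    · have : {V | p k j ∧ ¬ Q x k j V} = ∅ := by
        ext V
        simp [hp]
      rw [this, measure_empty]
      exact bot_le
  obtain ⟨n, hn⟩ : ∃ n : ℕ, n = ⌊T⌋₊ := ⟨_, rfl⟩
  obtain ⟨J, hJ⟩ : ∃ J : ℕ, J = ⌊2 * d * T⌋₊ := ⟨_, rfl⟩
  have hnT : (n : ℝ) ≤ T := hn ▸ Nat.floor_le hT0.le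
  have hJT : (J : ℝ) ≤ 2 * d * T := hJ ▸ Nat.floor_le (by positivity)
  obtain ⟨S, hS⟩ : ∃ S : Finset (Site d × ℕ × ℤ), S =
    (box (0 : Site d) n) ×ˢ (Finset.range (n + 1)) ×ˢ (Finset.Icc (-(J : ℤ)) J) := ⟨_, rfl⟩
  have hcard : (S.card : ℝ) ≤ (3 * T) ^ d * (2 * T * (5 * d * T)) := by
    rw [hS, Finset.card_product, Finset.card_product, card_box, Finset.card_range, Int.card_Icc]
    have e1 : ((J : ℤ) + 1 - -(J : ℤ)).toNat = 2 * J + 1 := by omega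
    rw [e1]
    push_cast
    have a1 : (2 * (n : ℝ) + 1) ^ d ≤ (3 * T) ^ d :=
      pow_le_pow_left₀ (by positivity) (by linarith) _
    have a2 : (n : ℝ) + 1 ≤ 2 * T := by linarith
    have a3 : 2 * (J : ℝ) + 1 ≤ 5 * d * T := by nlinarith
    have a4 : ((n : ℝ) + 1) * (2 * (J : ℝ) + 1) ≤ 2 * T * (5 * d * T) :=
      mul_le_mul a2 a3 (by positivity) (by positivity)
    exact mul_le_mul a1 a4 (by positivity) (by positivity)
  have hsub : {V | ¬ ∀ (x : Site d) (E η : ℝ), (sd 0 x : ℝ) ≤ T → |E| ≤ 2 * d - a →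
        1 / T ≤ η → η ≤ s ^ 3 →
          c ≤ (G V ⟨E, η⟩ (del x) x).im ∧ (G V ⟨E, η⟩ (del x) x).im ≤ 1 / c} ⊆
      ⋃ i ∈ S, {V | p i.2.1 i.2.2 ∧ ¬ Q i.1 i.2.1 i.2.2 V} := by
    intro V hV
    by_contra hno
    apply hV
    intro x E η hx hE hη1 hη2
    have hxn : x ∈ box (0 : Site d) n := by
      rw [mem_box, hn]
      exact Nat.le_floor hx
    refine detp (f := fun E η => (G V ⟨E, η⟩ (del x) x).im) (b := 2 * d - a) (c₀ := c₀)
      (D := 2 * d) (n := n) (J := J) hc0 hc₀ hcc hT1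
      (pow_le_one₀ hs0.le (by linarith)) (by linarith) hn hJ
      (fun E E' η η' h1 h2 h3 h4 => har d V E E' η η' x h1 h2 h3 h4) ?_ hE hη1 hη2
    intro k j hk hj hp1 hp2
    by_contra hq
    apply hno
    rw [Set.mem_iUnion₂]
    refine ⟨(x, k, j), ?_, ⟨hp1, hp2⟩, hq⟩
    rw [hS, Finset.mem_product, Finset.mem_product]
    exact ⟨hxn, Finset.mem_range.2 (Nat.lt_succ_of_le hk), hj⟩
  refine (measure_mono hsub).trans ((measure_biUnion_finset_le _ _).trans ?_)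
  refine (Finset.sum_le_sum fun i _ => hP i.1 i.2.1 i.2.2).trans ?_
  rw [Finset.sum_const, nsmul_eq_mul, ← ENNReal.ofReal_natCast, ← ENNReal.ofReal_mul (by positivity)]
  apply ENNReal.ofReal_le_ofReal
  exact (mul_le_mul_of_nonneg_right hcard (Real.exp_pos _).le).trans (numb hd hT1 hT' hB hXB)

end Pool.Agent.LE.QY.H69
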